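import Mathlib
import Pool.Agent.H106BP.Core

set_option autoImplicit false

open Filter Topology

open scoped ENNReal

namespace Pool.Agent.Results.MP_70d3c3_lc.TwentySevenBins

/-- A list of items: all sizes lie in `(0,1]`. -/
def IsItemList (L : List ℝ) : Prop := ∀ a ∈ L, 0 < a ∧ a ≤ 1

/-- The items of `L` can be packed (off-line) into `m` bins of capacity `1`. -/
def Packable (L : List ℝ) (m : ℕ) : Prop :=
  ∃ f : Fin L.length → Fin m, ∀ j : Fin m,
    ∑ i ∈ (Finset.univ : Finset (Fin L.length)).filter (fun i => f i = j), L.get i ≤ 1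

/-- `OPT(L)`: the minimum number of bins into which `L` can be packed. -/
noncomputable def OPT (L : List ℝ) : ℕ := sInf {m : ℕ | Packable L m}

/-- A deterministic on-line algorithm: `bin p x` is the label of the bin into which the item `x`
is placed when the items which came before it are (in this order) the items of the list `p`. -/
structure OnlineAlg where
  bin : List ℝ → ℝ → ℕ

/-- The bin which receives the item number `i` of the list `L`. -/
def OnlineAlg.place (A : OnlineAlg) (L : List ℝ) (i : Fin L.length) : ℕ :=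
  A.bin (L.take (i : ℕ)) (L.get i)

/-- The bins that are used on the list `L`. -/
def OnlineAlg.usedBins (A : OnlineAlg) (L : List ℝ) : Finset ℕ :=
  (Finset.univ : Finset (Fin L.length)).image (A.place L)

/-- `A(L)`: the number of bins that are used on the list `L`. -/
def OnlineAlg.numBins (A : OnlineAlg) (L : List ℝ) : ℕ := (A.usedBins L).card

/-- No bin is ever overfilled. -/
def OnlineAlg.Feasible (A : OnlineAlg) : Prop :=
  ∀ L : List ℝ, IsItemList L → ∀ b : ℕ,
    ∑ i ∈ (Finset.univ : Finset (Fin L.length)).filter (fun i => A.place L i = b), L.get i ≤ 1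

/-- `A` is `k`-bounded-space: after every list `p` there is a set `act p` of active bins, all of
them used and at most `k` in number. The next item `x` goes into an active bin or into a bin which
has not been used before; this bin is active after the placement of `x`, and no other bin becomes
active (so a closed bin never becomes active again and never receives an item). -/
def OnlineAlg.IsBoundedSpace (A : OnlineAlg) (k : ℕ) : Prop :=
  ∃ act : List ℝ → Finset ℕ, ∀ p : List ℝ, IsItemList p →
    act p ⊆ A.usedBins p ∧ (act p).card ≤ k ∧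
    ∀ x : ℝ, 0 < x → x ≤ 1 →
      (A.bin p x ∈ act p ∨ A.bin p x ∉ A.usedBins p) ∧
      A.bin p x ∈ act (p ++ [x]) ∧ act (p ++ [x]) ⊆ insert (A.bin p x) (act p)

/-- `R_A^n`: the supremum of `A(L)/OPT(L)` over all lists `L` with `OPT(L) = n`. -/
noncomputable def OnlineAlg.ratio (A : OnlineAlg) (n : ℕ) : ℝ≥0∞ :=
  ⨆ (L : List ℝ) (_ : IsItemList L) (_ : OPT L = n), (A.numBins L : ℝ≥0∞) / (n : ℝ≥0∞)

/-- `R_A^∞`: the asymptotic worst case ratio. -/
noncomputable def OnlineAlg.asymptoticRatio (A : OnlineAlg) : ℝ≥0∞ := limsup A.ratio atTop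

/-- The sequence `2, 3, 7, 43, 1807, …` (indexed from `0`). -/
def t : ℕ → ℕ
  | 0 => 2
  | i + 1 => t i * (t i - 1) + 1

/-- `h_∞ = ∑ 1/(t_i - 1) ≈ 1.69103`. -/
noncomputable def hInf : ℝ := ∑' i : ℕ, 1 / ((t i : ℝ) - 1)

open Pool.Agent.H106BP in
theorem hInf_eq : hInf = hh := tsum_eq t rfl (fun _ => rfl)

/-- The algorithm. -/
noncomputable def alg : OnlineAlg := ⟨Pool.Agent.H106BP.AA⟩

theorem usedBins_eq (L : List ℝ) : alg.usedBins L = Pool.Agent.H106BP.used Pool.Agent.H106BP.AA L :=
  Pool.Agent.H106BP.fin_used _ L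

theorem feasible : alg.Feasible := by
  intro L hL b
  have h := Pool.Agent.H106BP.feas hL b
  rw [← Pool.Agent.H106BP.fin_load] at h
  exact h

open Pool.Agent.H106BP in
/-- labels of the open bins of all components -/
noncomputable def F (p : List ℝ) : Finset ℕ :=
  (Finset.range 9).biUnion (fun c => (ids (run (fl c p))).image (fun k => 9 * k + c))

open Pool.Agent.H106BP in
theorem mem_F (p : List ℝ) (k : ℕ) : k ∈ F p ↔ k / 9 ∈ ids (run (fl (k % 9) p)) := by
  unfold F
  rw [Finset.mem_biUnion]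
  constructor
  · rintro ⟨c, hc, hk⟩
    rw [Finset.mem_image] at hk
    obtain ⟨a, ha, rfl⟩ := hk
    rw [Finset.mem_range] at hc
    have h1 : (9 * a + c) % 9 = c := by omega
    have h2 : (9 * a + c) / 9 = a := by omega
    rw [h1, h2]; exact ha
  · intro h
    refine ⟨k % 9, Finset.mem_range.2 (Nat.mod_lt _ (by norm_num)), ?_⟩
    rw [Finset.mem_image]
    exact ⟨k / 9, h, by omega⟩

open Pool.Agent.H106BP in
theorem card_F (p : List ℝ) : (F p).card ≤ 27 := by
  unfold F
  refine le_trans Finset.card_biUnion_le ?_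
  have h7 : ∀ c ∈ Finset.range 9, ((ids (run (fl c p))).image (fun k => 9 * k + c)).card ≤ 3 := by
    intro c _
    refine le_trans Finset.card_image_le ?_
    unfold ids
    exact Finset.card_le_three
  refine le_trans (Finset.sum_le_sum h7) ?_
  simp

open Pool.Agent.H106BP in
theorem step_self (s : St) (x : ℝ) : (step s x).1 ∈ ids (step s x).2 := by
  unfold step ids
  split_ifs <;> simp

open Pool.Agent.H106BP in
theorem bounded_space : alg.IsBoundedSpace 27 := by
  refine ⟨fun p => F p ∩ alg.usedBins p, ?_⟩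
  intro p hp
  refine ⟨Finset.inter_subset_right, le_trans (Finset.card_le_card Finset.inter_subset_left) (card_F p), ?_⟩
  intro x hx0 hx1
  have husd : ∀ k, k ∈ used AA p → k / 9 < (run (fl (k % 9) p)).nx := by
    intro k hk
    rw [used_AA] at hk
    exact (inv_run (fl (k % 9) p) (fl_val hp)).usd _ hk
  have hb1 : AA p x % 9 = comp x := AA_mod p x
  have hb2 : AA p x / 9 = ch (fl (comp x) p) x := AA_div p x
  refine ⟨?_, ?_, ?_⟩
  · show AA p x ∈ F p ∩ alg.usedBins p ∨ AA p x ∉ alg.usedBins p
    rw [usedBins_eq]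
    by_cases hu : AA p x ∈ used AA p
    · left
      rw [Finset.mem_inter]
      refine ⟨?_, hu⟩
      rw [mem_F, hb1, hb2]
      have h1 := husd _ hu
      rw [hb1, hb2] at h1
      rcases (step_ids (run (fl (comp x) p)) x).2.2 with h | h
      · exact h
      · exfalso
        unfold ch at h1
        omega
    · right; exact hu
  · show AA p x ∈ F (p ++ [x]) ∩ alg.usedBins (p ++ [x])
    rw [usedBins_eq, Finset.mem_inter, used_snoc]
    refine ⟨?_, Finset.mem_insert_self _ _⟩
    rw [mem_F, hb1, hb2, fl_snoc_eq _ _ _ rfl, run_snoc]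
    exact step_self _ _
  · show F (p ++ [x]) ∩ alg.usedBins (p ++ [x]) ⊆ insert (AA p x) (F p ∩ alg.usedBins p)
    intro k hk
    rw [usedBins_eq, Finset.mem_inter, used_snoc, Finset.mem_insert] at hk
    obtain ⟨hk1, hk2⟩ := hk
    rw [Finset.mem_insert]
    rcases hk2 with rfl | hk2
    · left; rfl
    · right
      rw [usedBins_eq, Finset.mem_inter]
      refine ⟨?_, hk2⟩
      rw [mem_F] at hk1 ⊢
      by_cases hc : comp x = k % 9
      · rw [fl_snoc_eq _ _ _ hc, run_snoc] at hk1
        rcases (step_ids (run (fl (k % 9) p)) x).1 _ hk1 with h | h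
        · exact h
        · have := husd _ hk2
          omega
      · rw [fl_snoc_ne _ _ _ hc] at hk1
        exact hk1

theorem upper_bound (L : List ℝ) (hL : IsItemList L) :
    (alg.numBins L : ℝ) ≤ hInf * (OPT L : ℝ) + 27 := by
  have h := Pool.Agent.H106BP.upper hL
  rw [hInf_eq]
  unfold OnlineAlg.numBins
  rw [usedBins_eq]
  have h2 : (OPT L : ℝ) = ((sInf (Pool.Agent.H106BP.packs L) : ℕ) : ℝ) := rfl
  rw [h2]
  linarith

theorem ratio_le (n : ℕ) (hn : 0 < n) : alg.ratio n ≤ ENNReal.ofReal (hInf + 27 / n) := by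
  unfold OnlineAlg.ratio
  refine iSup_le fun L => iSup_le fun hL => iSup_le fun hn' => ?_
  have h := upper_bound L hL
  rw [hn'] at h
  have hnr : (0 : ℝ) < n := by exact_mod_cast hn
  have h1 : (alg.numBins L : ℝ≥0∞) / (n : ℝ≥0∞) = ENNReal.ofReal ((alg.numBins L : ℝ) / n) := by
    rw [ENNReal.ofReal_div_of_pos hnr, ENNReal.ofReal_natCast, ENNReal.ofReal_natCast]
  rw [h1]
  apply ENNReal.ofReal_le_ofReal
  rw [div_le_iff₀ hnr]
  have h2 : (hInf + 27 / n) * (n : ℝ) = hInf * n + 27 := by
    field_simp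
  rw [h2]
  exact h

open Pool.Agent.H106BP in
theorem le_ratio (M N : ℕ) (hN : 0 < N) :
    ENNReal.ofReal (∑ j ∈ Finset.range (M + 1), 1 / (T j : ℝ) - ((M : ℝ) + 1) * 27 / N)
      ≤ alg.ratio N := by
  have hmem := opt_le M N hN
  have hopt : OPT (LL M N) = N :=
    le_antisymm (Nat.sInf_le hmem) (opt_ge M N _ (Nat.sInf_mem ⟨N, hmem⟩))
  have h1 := lower (A := AA) (K := 27) (fun L hL k => feas hL k) bounded M N
  have hNr : (0 : ℝ) < N := by exact_mod_cast hN
  have h2 : ENNReal.ofReal (∑ j ∈ Finset.range (M + 1), 1 / (T j : ℝ) - ((M : ℝ) + 1) * 27 / N)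
      ≤ (alg.numBins (LL M N) : ℝ≥0∞) / (N : ℝ≥0∞) := by
    have h3 : (alg.numBins (LL M N) : ℝ≥0∞) / (N : ℝ≥0∞)
        = ENNReal.ofReal ((alg.numBins (LL M N) : ℝ) / N) := by
      rw [ENNReal.ofReal_div_of_pos hNr, ENNReal.ofReal_natCast, ENNReal.ofReal_natCast]
    rw [h3]
    apply ENNReal.ofReal_le_ofReal
    rw [le_div_iff₀ hNr]
    unfold OnlineAlg.numBins
    rw [usedBins_eq]
    push_cast at h1
    refine le_trans (le_of_eq ?_) h1
    field_simp
  refine le_trans h2 ?_
  unfold OnlineAlg.ratio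
  exact le_iSup_of_le (LL M N) (le_iSup_of_le (LL_val M N) (le_iSup_of_le hopt le_rfl))

theorem asymptotic_le : alg.asymptoticRatio ≤ ENNReal.ofReal hInf := by
  unfold OnlineAlg.asymptoticRatio
  have h1 : Tendsto (fun n : ℕ => ENNReal.ofReal (hInf + 27 / (n : ℝ))) atTop
      (𝓝 (ENNReal.ofReal hInf)) := by
    apply ENNReal.tendsto_ofReal
    have h2 : Tendsto (fun n : ℕ => (27 : ℝ) / (n : ℝ)) atTop (𝓝 0) :=
      tendsto_const_div_atTop_nhds_zero_nat 27
    simpa using tendsto_const_nhds.add h2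
  rw [← h1.limsup_eq]
  apply limsup_le_limsup
  · filter_upwards [eventually_gt_atTop 0] with n hn
    exact ratio_le n hn
  · isBoundedDefault
  · isBoundedDefault

open Pool.Agent.H106BP in
theorem le_asymptotic : ENNReal.ofReal hInf ≤ alg.asymptoticRatio := by
  have hM : ∀ M : ℕ, ENNReal.ofReal (∑ j ∈ Finset.range (M + 1), 1 / (T j : ℝ)) ≤ alg.asymptoticRatio := by
    intro M
    unfold OnlineAlg.asymptoticRatio
    have h1 : Tendsto (fun n : ℕ => ENNReal.ofReal
        (∑ j ∈ Finset.range (M + 1), 1 / (T j : ℝ) - ((M : ℝ) + 1) * 27 / (n : ℝ))) atTop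
        (𝓝 (ENNReal.ofReal (∑ j ∈ Finset.range (M + 1), 1 / (T j : ℝ)))) := by
      apply ENNReal.tendsto_ofReal
      have h2 : Tendsto (fun n : ℕ => (((M : ℝ) + 1) * 27) / (n : ℝ)) atTop (𝓝 0) :=
        tendsto_const_div_atTop_nhds_zero_nat _
      simpa using tendsto_const_nhds.sub h2
    rw [← h1.limsup_eq]
    apply limsup_le_limsup
    · filter_upwards [eventually_gt_atTop 0] with n hn
      exact le_ratio M n hn
    · isBoundedDefault
    · isBoundedDefault
  rw [hInf_eq]
  have h3 : Tendsto (fun M : ℕ => ∑ j ∈ Finset.range (M + 1), 1 / (T j : ℝ)) atTop (𝓝 hh) :=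
    (tendsto_add_atTop_iff_nat 1).2 summable_T.hasSum.tendsto_sum_nat
  exact le_of_tendsto' (ENNReal.tendsto_ofReal h3) hM

/-- There is a feasible `27`-bounded-space on-line algorithm whose asymptotic worst case ratio is
exactly `h_∞`; moreover it uses at most `h_∞ OPT(L) + 27` bins on every list `L`. -/
theorem result : ∃ A : OnlineAlg, A.Feasible ∧ A.IsBoundedSpace 27 ∧
    A.asymptoticRatio = ENNReal.ofReal hInf ∧
    ∀ L : List ℝ, IsItemList L → (A.numBins L : ℝ) ≤ hInf * (OPT L : ℝ) + 27 :=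
  ⟨alg, feasible, bounded_space, le_antisymm asymptotic_le le_asymptotic, upper_bound⟩

end Pool.Agent.Results.MP_70d3c3_lc.TwentySevenBins
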